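import Pool.Agent.Helper66.TU.Defs
import Pool.Agent.Helper83.TU.TT
import Pool.Agent.Helper83.TU.LIN
import Pool.Agent.Helper4.TU.SIGEST

/-!
# MP_ed3816_nt: the displacement theorem
-/

namespace GWA

section DISP

variable {K : Type} [NormedField K] [Algebra GaussianInt K] [NeZero (2 : K)] [DecidableEq K]
  {π : GaussianInt} {A : (d : Kˣ) → E (d : K) → E (d : K) → Prop}

/-- the images of a pair of points under the involution -/
theorem MSt.disp_step (hA : MSt π A) {d d' : Kˣ} {P Q : E (d : K)} (hP : ff (nx P) ≠ 0)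
    (hQ : ff (nx Q) ≠ 0) (hD : sD (nx P) (nx Q) ≠ 0) (hS : sS (nx P) (nx Q) ≠ 0)
    (hQq : sQ (nx P) (nx Q) ≠ 0) {c : K} (hc : c ≠ 0)
    (hdc : (d' : K) * c ^ 2 = kap (nx P) (nx Q) * d) (hPQ : A d P Q) :
    ∃ P' Q' : E (d' : K), A d' P' Q' ∧ P' ≠ 0 ∧ Q' ≠ 0 ∧ nx P' = sx (nx P) (nx Q) ∧
      nx Q' = sy (nx P) (nx Q) ∧ yc P' / d' = kap (nx P) (nx Q) / c * (yc P / d) ∧
      yc Q' / d' = kap (nx P) (nx Q) / c * (yc Q / d) := by
  have hd := d.ne_zero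
  have hd' := d'.ne_zero
  have hk : (d' : K) = kap (nx P) (nx Q) * d / c ^ 2 := by
    rw [eq_div_iff (pow_ne_zero 2 hc)]
    exact hdc
  have e1 : (kap (nx P) (nx Q) / c * (yc P / d)) ^ 2 = d' * ff (sx (nx P) (nx Q)) := by
    rw [mul_pow, sq_ff_nx hd, ff_sx hD, hk]
    field_simp
  have e2 : (kap (nx P) (nx Q) / c * (yc Q / d)) ^ 2 = d' * ff (sy (nx P) (nx Q)) := by
    rw [mul_pow, sq_ff_nx hd, ff_sy hD, hk]
    field_simp
  obtain ⟨P', hP0, hPx, hPy⟩ := exists_pt hd' e1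
  obtain ⟨Q', hQ0, hQx, hQy⟩ := exists_pt hd' e2
  have hyP := (yc_ne_iff hd P).2 hP
  have hyQ := (yc_ne_iff hd Q).2 hQ
  refine ⟨P', Q', ?_, hP0, hQ0, hPx, hQx, ?_, ?_⟩
  · refine hA.sig d P Q d' P' Q' ⟨mkPt hd P Q hyP hyQ, ⟨hD, hS, hQq⟩, rep_mkPt hd hyP hyQ,
      hd', hP0, hQ0, ?_, ?_, ?_⟩ hPQ
    · change sx (nx P) (nx Q) * (d' : K) = xc P'
      rw [← hPx, xc_eq hd' P', mul_comm]
    · change sy (nx P) (nx Q) * (d' : K) = xc Q'
      rw [← hQx, xc_eq hd' Q', mul_comm]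
    · change kap (nx P) (nx Q) * (yc P * yc Q / (d : K) ^ 3) * (d' : K) ^ 3 = yc P' * yc Q'
      rw [hPy, hQy]
      have e3 : (d' : K) ^ 3 = (d' : K) ^ 2 * (kap (nx P) (nx Q) * d / c ^ 2) := by
        rw [← hk]; ring
      rw [e3]
      field_simp
  · rw [hPy]; field_simp
  · rw [hQy]; field_simp

omit [NeZero (2 : K)] [DecidableEq K] in
theorem LHU.disp_ff_sub (h : LHU K π) {u v : K} (hu : ‖u‖ ≤ 1) (hv : ‖v‖ ≤ 1) :
    ‖ff u - ff v‖ ≤ ‖u - v‖ := by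
  have e : ff u - ff v = (u - v) * (u ^ 2 + u * v + v ^ 2 - 1) := by unfold ff; ring
  rw [e, norm_mul]
  refine mul_le_of_le_one_right (norm_nonneg _) ?_
  refine (h.norm_sub_le _ _).trans (max_le ((h.ultra _ _).trans (max_le
    ((h.ultra _ _).trans (max_le ?_ ?_)) ?_)) (by rw [norm_one]))
  · rw [norm_pow]; exact pow_le_one₀ (norm_nonneg _) hu
  · rw [norm_mul]; exact mul_le_one₀ hu (norm_nonneg _) hv
  · rw [norm_pow]; exact pow_le_one₀ (norm_nonneg _) hv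

/-- the second coordinates of close points are close -/
theorem LHU.disp_yc (h : LHU K π) {d : Kˣ} (hd : ‖(d : K)‖ = 1) {P R : E (d : K)}
    (hP : Ord P) (hP0 : P ≠ 0) (hR0 : R ≠ 0) (hζ : R - P ∈ nb π (d : K) 0) {ρ : ℝ} (hρ : ρ < 1)
    (hx : ‖nx R - nx P‖ ≤ ρ) : ‖yc R / d - yc P / d‖ < 1 := by
  have hd0 := d.ne_zero
  by_contra hcon
  push Not at hcon
  have hR1 : ‖nx R‖ ≤ 1 := by
    have e : nx R = (nx R - nx P) + nx P := by ring
    rw [e]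
    exact (h.ultra _ _).trans (max_le (hx.trans hρ.le) hP.1)
  have e1 : (yc R / d - yc P / d) * (yc R / d + yc P / d) = d * (ff (nx R) - ff (nx P)) := by
    have h1 := sq_ff_nx hd0 R
    have h2 := sq_ff_nx hd0 P
    linear_combination h1 - h2
  have h3 : ‖(yc R / d - yc P / d) * (yc R / d + yc P / d)‖ < 1 := by
    rw [e1, norm_mul, hd, one_mul]
    exact lt_of_le_of_lt ((h.disp_ff_sub hR1 hP.1).trans hx) hρ
  rw [norm_mul] at h3
  have h4 : ‖yc R / d + yc P / d‖ < 1 := by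
    refine lt_of_le_of_lt ?_ h3
    exact le_mul_of_one_le_left (norm_nonneg _) hcon
  have hO : Ord (-P) := by
    unfold Ord
    rw [nx_neg]
    exact hP
  have h5 := (h.tt_of_close hd hO hR0 hρ (by rw [nx_neg]; exact hx) (by
    rw [yc_neg]
    have e : yc R / (d : K) - -yc P / d = yc R / d + yc P / d := by ring
    rw [e]
    exact h4)).1
  have h6 : P + P ∈ nb π (d : K) 0 := by
    have e : P + P = (R - -P) + -(R - P) := by abel
    rw [e]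
    exact h.nb_add hd0 0 h5 (neg_mem_nbh hζ)
  have hff : ff (nx P) ≠ 0 := by
    intro h0
    have := hP.2.1
    rw [h0, norm_zero] at this
    norm_num at this
  obtain ⟨h7, h8⟩ := nx_double hd0 hP0 hff
  rcases (h.mem_nb_zero_iff hd0).1 h6 with h9 | h9
  · exact h7 h9
  · have h10 := congrArg norm h8
    have n4 : ‖(4 : K)‖ = 1 := by
      have : (4 : K) = 2 * 2 := by norm_num
      rw [this, norm_mul, h.norm_two h.odd, one_mul]
    rw [norm_mul, norm_mul, n4, hP.2.1, one_mul, mul_one, norm_pow] at h10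
    have h11 : ‖nx P ^ 2 + 1‖ ≤ 1 := by
      refine (h.ultra _ _).trans (max_le ?_ (by rw [norm_one]))
      rw [norm_pow]
      exact pow_le_one₀ (norm_nonneg _) hP.1
    have h12 : ‖nx P ^ 2 + 1‖ ^ 2 ≤ 1 := pow_le_one₀ (norm_nonneg _) h11
    rw [← h10] at h12
    linarith

omit [Algebra GaussianInt K] [NeZero (2 : K)] [DecidableEq K] in
/-- the parameter in terms of the normalised coordinates -/
theorem disp_tt_eq {d : K} (hd : d ≠ 0) (P : E d) : tt P = nx P / (yc P / d) := by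
  unfold tt nx
  by_cases hy : yc P = 0
  · rw [hy]; simp
  · field_simp

/-- the displacement theorem -/
theorem LHU.disp (h : LHU K π) (hA : MSt π A) {d : Kˣ} (hd : ‖(d : K)‖ = 1) {P Q : E (d : K)}
    (hP : Ord P) (hQ : Q ∈ nb π (d : K) 0) (b : GaussianInt) (hPQ : A d P Q) :
    ∃ P' Q' : E (d : K), A d P' Q' ∧ P' - P ∈ nb π (d : K) 0 ∧ Q' - Q ∈ nb π (d : K) 0 ∧
      ‖tt (P' - P) - (3 * nx P - 1) / 2 * (algebraMap GaussianInt K b * tt Q)‖ ≤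
        ‖algebraMap GaussianInt K π‖ * (‖algebraMap GaussianInt K b‖ * ‖tt Q‖) ∧
      ‖tt (Q' - Q)‖ ≤ ‖algebraMap GaussianInt K π‖ * (‖algebraMap GaussianInt K b‖ * ‖tt Q‖) := by
  have hd0 := d.ne_zero
  have hp0 := h.norm_pi_pos
  have hp1 := h.norm_pi
  have h2 : ‖(2 : K)‖ = 1 := h.norm_two h.odd
  by_cases hQ0 : Q = 0
  · refine ⟨P, Q, hPQ, ?_, ?_, ?_, ?_⟩
    · rw [sub_self]; exact zero_mem_nbh _ _ _
    · rw [sub_self]; exact zero_mem_nbh _ _ _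
    · rw [hQ0, sub_self, ftt_zero]; simp
    · rw [hQ0, sub_self, ftt_zero]; simp
  by_cases hb0 : algebraMap GaussianInt K b = 0
  · refine ⟨P, Q, hPQ, ?_, ?_, ?_, ?_⟩
    · rw [sub_self]; exact zero_mem_nbh _ _ _
    · rw [sub_self]; exact zero_mem_nbh _ _ _
    · rw [hb0, sub_self, ftt_zero]; simp
    · rw [hb0, sub_self, ftt_zero]; simp
  -- notation
  obtain ⟨x, hx⟩ : ∃ x, x = nx P := ⟨_, rfl⟩
  obtain ⟨y, hy⟩ : ∃ y, y = nx Q := ⟨_, rfl⟩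
  obtain ⟨β, hβ⟩ : ∃ β, β = algebraMap GaussianInt K b := ⟨_, rfl⟩
  obtain ⟨τ, hτ⟩ : ∃ τ, τ = tt Q := ⟨_, rfl⟩
  obtain ⟨p, hp⟩ : ∃ p, p = ‖algebraMap GaussianInt K π‖ := ⟨_, rfl⟩
  have hβ1 : ‖β‖ ≤ 1 := by rw [hβ]; exact h.norm_O_le b
  have hβ0 : 0 < ‖β‖ := by rw [hβ]; exact norm_pos_iff.2 hb0
  have hx1 : ‖x‖ ≤ 1 := by rw [hx]; exact hP.1
  have hffx : ‖ff x‖ = 1 := by rw [hx]; exact hP.2.1
  have h3x : ‖3 * x - 1‖ = 1 := by rw [hx]; exact hP.2.2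
  have hy1 : 1 < ‖y‖ := by rw [hy]; exact h.norm_nx_sq hd0 hQ0 hQ
  have hy0 : y ≠ 0 := by
    intro h0
    rw [h0, norm_zero] at hy1
    linarith
  have hypos : 0 < ‖y‖ := by linarith
  obtain ⟨hyQ, hτy⟩ := h.norm_tt hd0 hQ0 hQ
  rw [xc_eq hd0, norm_mul, hd, one_mul, ← hτ, ← hy] at hτy
  have hτ0 : 0 < ‖τ‖ := by
    rw [hτ]
    exact norm_pos_iff.2 (h.tt_ne hd0 hQ0 hQ)
  have hyinv : ‖y‖⁻¹ = ‖τ‖ ^ 2 := inv_eq_of_mul_eq_one_left hτy
  have hτ1 : ‖τ‖ < 1 := by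
    by_contra hcon
    push Not at hcon
    have h4 : 1 ≤ ‖τ‖ ^ 2 := one_le_pow₀ hcon
    have h5 : ‖y‖⁻¹ < 1 := inv_lt_one_of_one_lt₀ hy1
    rw [hyinv] at h5
    linarith
  have hτp : ‖τ‖ ≤ p := by rw [hp]; exact h.disc1 hτ1
  rw [← hp] at hp0 hp1
  have hyp : ‖y‖⁻¹ ≤ p := by
    rw [hyinv, sq]
    calc ‖τ‖ * ‖τ‖ ≤ p * 1 := mul_le_mul hτp hτ1.le hτ0.le hp0.le
      _ = p := mul_one p
  obtain ⟨ε, hε⟩ : ∃ ε, ε = ‖β‖ * ‖τ‖ := ⟨_, rfl⟩
  have hε0 : 0 < ε := by rw [hε]; positivity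
  have hετ : ε ≤ ‖τ‖ := by rw [hε]; exact mul_le_of_le_one_left hτ0.le hβ1
  have hεp : ε ≤ p := hετ.trans hτp
  have hε1 : ε < 1 := lt_of_le_of_lt hεp hp1
  have hεε : ε ^ 2 ≤ p * ε := by rw [sq]; exact mul_le_mul_of_nonneg_right hεp hε0.le
  -- the first involution
  obtain ⟨s1, s2, s3, s4, s5, s6, -, s7, s8, s9, s10⟩ := h.sig_est hx1 h3x hy1
  have hne : ∀ z : K, 0 < ‖z‖ → z ≠ 0 := fun z hz => norm_pos_iff.1 hz
  have hffP : ff (nx P) ≠ 0 := by rw [← hx]; exact hne _ (by rw [hffx]; exact one_pos)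
  have hffQ : ff (nx Q) ≠ 0 := (yc_ne_iff hd0 Q).1 hyQ
  have hD : sD (nx P) (nx Q) ≠ 0 := by rw [← hx, ← hy]; exact hne _ (by rw [s1]; exact hypos)
  have hS : sS (nx P) (nx Q) ≠ 0 := by rw [← hx, ← hy]; exact hne _ (by rw [s2]; exact hypos)
  have hQq : sQ (nx P) (nx Q) ≠ 0 := by
    rw [← hx, ← hy]; exact hne _ (by rw [s3]; exact pow_pos hypos 2)
  have hk0 : kap x y ≠ 0 := hne _ (by rw [s5]; exact one_pos)
  obtain ⟨ds, hds⟩ : ∃ ds : Kˣ, (ds : K) = kap x y * d :=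
    ⟨Units.mk0 _ hk0 * d, by rw [Units.val_mul, Units.val_mk0]⟩
  have hds1 : ‖(ds : K)‖ = 1 := by rw [hds, norm_mul, s5, hd, one_mul]
  have hds0 := ds.ne_zero
  obtain ⟨Ps, Qs, hA1, hPs0, hQs0, hPsx, hQsx, hPsy, hQsy⟩ := hA.disp_step (d' := ds) hffP hffQ
    hD hS hQq (c := 1) one_ne_zero (by rw [← hx, ← hy, hds]; ring) hPQ
  rw [← hx, ← hy] at hPsx hQsx hPsy hQsy
  rw [div_one] at hPsy hQsy
  -- the affine map
  have hA2 : A ds (Ps + b • Qs) Qs := by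
    have := hA.aff 1 b 0 1 0 0 ds Ps Qs hA1
    simpa using this
  have hQsnb : Qs ∈ nb π (ds : K) 0 := by
    rw [h.mem_nb_zero_iff hds0]
    right
    rw [hQsx, s9]
    exact hy1
  obtain ⟨ζ, hζ⟩ : ∃ ζ, ζ = b • Qs := ⟨_, rfl⟩
  have hζnb : ζ ∈ nb π (ds : K) 0 := by rw [hζ]; exact h.nb_smul ds 0 b hQsnb
  obtain ⟨τs, hτs⟩ : ∃ τs, τs = tt Qs := ⟨_, rfl⟩
  have hτsn : ‖τs‖ = ‖τ‖ := by
    obtain ⟨-, h4⟩ := h.norm_tt hds0 hQs0 hQsnb
    rw [xc_eq hds0, norm_mul, hds1, one_mul, ← hτs, hQsx, s9] at h4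
    have h5 : ‖τs‖ ^ 2 = ‖τ‖ ^ 2 := by
      rw [← hyinv]
      exact (inv_eq_of_mul_eq_one_left h4).symm
    exact (pow_left_inj₀ (norm_nonneg _) (norm_nonneg _) two_ne_zero).1 h5
  have hE1 : ‖tt ζ - β * τs‖ ≤ p * ε := by
    have := h.tt_smul_rel ds b hQsnb
    rw [← hζ, ← hβ, ← hτs, hτsn, ← hp, ← hε] at this
    exact this
  have hpε : p * ε ≤ ε := mul_le_of_le_one_left hε0.le hp1.le
  have httζ : ‖tt ζ‖ ≤ ε := by
    have e : tt ζ = (tt ζ - β * τs) + β * τs := by ring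
    rw [e]
    refine (h.ultra _ _).trans (max_le (hE1.trans hpε) ?_)
    rw [norm_mul, hτsn, hε]
  obtain ⟨hR0, hE2⟩ := h.nx_add_small hds1 hPs0 (by rw [hPsx]; exact s7) hζnb
  rw [← hζ] at hA2
  obtain ⟨R, hR⟩ : ∃ R, R = Ps + ζ := ⟨_, rfl⟩
  rw [← hR] at hA2 hR0 hE2
  obtain ⟨ηP, hηP⟩ : ∃ ηP, ηP = yc P / (d : K) := ⟨_, rfl⟩
  obtain ⟨ηQ, hηQ⟩ : ∃ ηQ, ηQ = yc Q / (d : K) := ⟨_, rfl⟩
  rw [← hηP] at hPsy
  rw [← hηQ] at hQsy
  have hηP1 : ‖ηP‖ = 1 := by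
    have h4 := congrArg norm (sq_ff_nx hd0 P)
    rw [norm_pow, norm_mul, hd, one_mul, ← hηP, ← hx, hffx] at h4
    exact (pow_eq_one_iff_of_nonneg (norm_nonneg _) two_ne_zero).1 h4
  have hηQ0 : ηQ ≠ 0 := by rw [hηQ]; exact div_ne_zero hyQ hd0
  obtain ⟨Δ, hΔ⟩ : ∃ Δ, Δ = nx R - sx x y := ⟨_, rfl⟩
  have hRx : nx R = sx x y + Δ := by rw [hΔ]; ring
  rw [hPsx, hPsy, ← hΔ] at hE2
  have hE2' : ‖Δ + 2 * (kap x y * ηP) * tt ζ‖ ≤ p * ε := by
    refine hE2.trans (le_trans ?_ hεε)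
    exact pow_le_pow_left₀ (norm_nonneg _) httζ 2
  have hE3 : ‖Δ + 2 * rho x y * ηP * β * τ‖ ≤ p * ε := by
    have hkτ : kap x y * τs = sy x y / y * τ := by
      rw [hτs, disp_tt_eq hds0 Qs, hQsx, hQsy, hτ, disp_tt_eq hd0 Q, ← hy, ← hηQ]
      field_simp
    have h4 : ‖kap x y * τs - rho x y * τ‖ ≤ p * ‖τ‖ := by
      have e : kap x y * τs - rho x y * τ = (sy x y / y - rho x y) * τ := by rw [hkτ]; ring
      rw [e, norm_mul]
      exact mul_le_mul_of_nonneg_right (s10.trans hyp) hτ0.le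
    have e : Δ + 2 * rho x y * ηP * β * τ = (Δ + 2 * (kap x y * ηP) * tt ζ) -
        (2 * (kap x y * ηP) * (tt ζ - β * τs) + 2 * ηP * β * (kap x y * τs - rho x y * τ)) := by
      ring
    rw [e]
    refine (h.norm_sub_le _ _).trans (max_le hE2' ((h.ultra _ _).trans (max_le ?_ ?_)))
    · rw [norm_mul, norm_mul, norm_mul, h2, s5, hηP1, one_mul, one_mul, one_mul]
      exact hE1
    · rw [norm_mul, norm_mul, norm_mul, h2, hηP1, one_mul, one_mul, hε]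
      calc ‖β‖ * ‖kap x y * τs - rho x y * τ‖ ≤ ‖β‖ * (p * ‖τ‖) :=
            mul_le_mul_of_nonneg_left h4 hβ0.le
        _ = p * (‖β‖ * ‖τ‖) := by ring
  have hΔε : ‖Δ‖ ≤ ε := by
    have e : Δ = (Δ + 2 * rho x y * ηP * β * τ) - 2 * rho x y * ηP * β * τ := by ring
    rw [e]
    refine (h.norm_sub_le _ _).trans (max_le (hE3.trans hpε) ?_)
    rw [norm_mul, norm_mul, norm_mul, norm_mul, h2, s4, hηP1, one_mul, one_mul, one_mul, hε]
  have hΔ1 : ‖Δ‖ < 1 := lt_of_le_of_lt hΔε hε1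
  -- the second involution
  have hsy1 : 1 < ‖sy x y‖ := by rw [s9]; exact hy1
  have hRx1 : ‖nx R‖ ≤ 1 := by
    rw [hRx]
    exact (h.ultra _ _).trans (max_le s7 hΔ1.le)
  have h3R : ‖3 * nx R - 1‖ = 1 := by
    have e : 3 * nx R - 1 = (3 * sx x y - 1) + 3 * Δ := by rw [hRx]; ring
    rw [e, h.norm_sum_eq, s8]
    rw [s8, norm_mul]
    have h4 : ‖(3 : K)‖ ≤ 1 := h.norm_ofNat_le 3
    calc ‖(3 : K)‖ * ‖Δ‖ ≤ 1 * ‖Δ‖ := mul_le_mul_of_nonneg_right h4 (norm_nonneg _)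
      _ < 1 := by rw [one_mul]; exact hΔ1
  obtain ⟨t1, t2, t3, t4, t5, -, -, -, -, t9, -⟩ := h.sig_est hRx1 h3R hsy1
  obtain ⟨v1, v2, v3⟩ := h.sig_var s7 s8 hsy1 hΔ1
  rw [← hRx] at v1 v2 v3
  have hDx : sD x y ≠ 0 := by rw [hx, hy]; exact hD
  have hSx : sS x y ≠ 0 := by rw [hx, hy]; exact hS
  have hQx : sQ x y ≠ 0 := by rw [hx, hy]; exact hQq
  have hrr := rho_rho hDx hSx hQx
  have hkk := kap_kap hDx hSx hQx
  obtain ⟨k2, hk2⟩ : ∃ k2, k2 = kap (nx R) (sy x y) := ⟨_, rfl⟩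
  have hk2n : ‖k2‖ = 1 := by rw [hk2]; exact t5
  have hk2k1 : ‖k2 * kap x y - 1‖ ≤ ‖Δ‖ := by
    have e : k2 * kap x y - 1 = (k2 - kap (sx x y) (sy x y)) * kap x y := by
      rw [sub_mul, hkk]
    rw [e, norm_mul, s5, mul_one, hk2]
    exact v3
  have n4 : ‖(4 : K)‖ = 1 := by
    have : (4 : K) = 2 * 2 := by norm_num
    rw [this, norm_mul, h2, one_mul]
  obtain ⟨c, hc2, hc1⟩ := h.sqrt (x := k2 * kap x y) (by
    rw [n4]; exact lt_of_le_of_lt hk2k1 hΔ1)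
  rw [h2, mul_one] at hc1
  have hc1' : ‖c - 1‖ ≤ ‖Δ‖ := hc1.trans hk2k1
  have hcn : ‖c‖ = 1 := by
    have e : c = 1 + (c - 1) := by ring
    rw [e, h.norm_sum_eq, norm_one]
    rw [norm_one]
    exact lt_of_le_of_lt hc1' hΔ1
  have hc0 : c ≠ 0 := hne _ (by rw [hcn]; exact one_pos)
  have hffR : ff (nx R) ≠ 0 := by
    have h4 : ‖ff (sx x y)‖ = 1 := by rw [ff_sx hDx, norm_mul, s5, hffx, one_mul]
    have h5 : ‖ff (nx R) - ff (sx x y)‖ < 1 := by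
      refine lt_of_le_of_lt (h.disp_ff_sub hRx1 s7) ?_
      rw [← hΔ]
      exact hΔ1
    have e : ff (nx R) = ff (sx x y) + (ff (nx R) - ff (sx x y)) := by ring
    refine hne _ ?_
    rw [e, h.norm_sum_eq (by rw [h4]; exact h5), h4]
    exact one_pos
  have hffQs : ff (nx Qs) ≠ 0 := by
    rw [hQsx, ff_sy hDx, hy]
    exact mul_ne_zero (by rw [← hy]; exact hk0) hffQ
  have hsypos : 0 < ‖sy x y‖ := by linarith
  obtain ⟨P', Q', hA3, hP'0, hQ'0, hP'x, hQ'x, hP'y, hQ'y⟩ := hA.disp_step (d' := d) hffR hffQs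
    (by rw [hQsx]; exact hne _ (by rw [t1]; exact hsypos))
    (by rw [hQsx]; exact hne _ (by rw [t2]; exact hsypos))
    (by rw [hQsx]; exact hne _ (by rw [t3]; exact pow_pos hsypos 2)) (c := c) hc0
    (by rw [hQsx, ← hk2, hc2, hds]; ring) hA2
  rw [hQsx, ← hk2] at hP'y hQ'y
  rw [hQsx] at hP'x hQ'x
  -- the first coordinate
  have hsxsx : sx (sx x y) (sy x y) = x := by
    have e : sx (sx x y) (sy x y) =
        1 + rho (sx x y) (sy x y) * (rho x y * (x - 1)) := by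
      conv_lhs => unfold sx
      unfold sx; ring
    rw [e, ← mul_assoc, hrr]; ring
  obtain ⟨ρ', hρ'⟩ : ∃ ρ', ρ' = rho (sx x y) (sy x y) := ⟨_, rfl⟩
  rw [← hρ'] at hrr v1 v2
  have hρ'n : ‖ρ'‖ = 1 := by
    have h4 := congrArg norm hrr
    rw [norm_mul, s4, mul_one, norm_one] at h4
    exact h4
  rw [hsxsx, ← hP'x, s9] at v1
  have hV1 : ‖nx P' - x + ρ' ^ 2 * Δ‖ ≤ p * ε := by
    refine v1.trans (mul_le_mul (max_le hyp (hΔε.trans hεp)) hΔε (norm_nonneg _) hp0.le)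
  have hV2 : ‖nx P' - x - 2 * ρ' * ηP * β * τ‖ ≤ p * ε := by
    have e : nx P' - x - 2 * ρ' * ηP * β * τ = (nx P' - x + ρ' ^ 2 * Δ) -
        ρ' ^ 2 * (Δ + 2 * rho x y * ηP * β * τ) := by
      linear_combination (2 * ρ' * ηP * β * τ) * hrr
    rw [e]
    refine (h.norm_sub_le _ _).trans (max_le hV1 ?_)
    rw [norm_mul, norm_pow, hρ'n, one_pow, one_mul]
    exact hE3
  have h3x0 : 3 * x - 1 ≠ 0 := hne _ (by rw [h3x]; exact one_pos)
  have hV3 : ‖2 * ρ' + (3 * x - 1)‖ ≤ p := by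
    have e : 2 * ρ' + (3 * x - 1) = ρ' * (3 * x - 1) * (rho x y + 2 / (3 * x - 1)) := by
      have e1 : ρ' * (3 * x - 1) * (rho x y + 2 / (3 * x - 1)) =
          (ρ' * rho x y) * (3 * x - 1) + 2 * ρ' := by field_simp
      rw [e1, hrr]; ring
    rw [e, norm_mul, norm_mul, hρ'n, h3x, one_mul, one_mul]
    exact s6.trans hyp
  have hV4 : ‖nx P' - x + (3 * x - 1) * ηP * β * τ‖ ≤ p * ε := by
    have e : nx P' - x + (3 * x - 1) * ηP * β * τ = (nx P' - x - 2 * ρ' * ηP * β * τ) +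
        (2 * ρ' + (3 * x - 1)) * (ηP * (β * τ)) := by ring
    rw [e]
    refine (h.ultra _ _).trans (max_le hV2 ?_)
    rw [norm_mul, norm_mul, hηP1, one_mul, norm_mul, ← hε]
    exact mul_le_mul_of_nonneg_right hV3 hε0.le
  have hV5 : ‖nx P' - x‖ ≤ ε := by
    have e : nx P' - x = (nx P' - x + (3 * x - 1) * ηP * β * τ) -
        (3 * x - 1) * (ηP * (β * τ)) := by ring
    rw [e]
    refine (h.norm_sub_le _ _).trans (max_le (hV4.trans hpε) ?_)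
    rw [norm_mul, norm_mul, hηP1, one_mul, norm_mul, h3x, one_mul, ← hε]
  -- the y-coordinate
  have hOPs : Ord Ps := by
    unfold Ord
    rw [hPsx]
    refine ⟨s7, ?_, s8⟩
    rw [ff_sx hDx, norm_mul, s5, hffx, one_mul]
  have hηR : ‖yc R / ds - kap x y * ηP‖ < 1 := by
    rw [← hPsy]
    refine h.disp_yc hds1 hOPs hPs0 hR0 ?_ hΔ1 ?_
    · rw [hR, add_sub_cancel_left]
      exact hζnb
    · rw [hPsx, ← hΔ]
  have hyP' : ‖yc P' / d - yc P / d‖ < 1 := by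
    rw [hP'y, ← hηP]
    have e : k2 / c * (yc R / ds) - ηP = k2 / c * (yc R / ds - kap x y * ηP) +
        (c - 1) * ηP := by
      have e1 : c = k2 / c * kap x y := by
        field_simp
        exact hc2
      linear_combination ηP * (-e1)
    rw [e]
    refine lt_of_le_of_lt (h.ultra _ _) (max_lt ?_ ?_)
    · rw [norm_mul, norm_div, hk2n, hcn, div_one, one_mul]
      exact hηR
    · rw [norm_mul, hηP1, mul_one]
      exact lt_of_le_of_lt hc1' hΔ1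
  obtain ⟨w1, w2, w3⟩ := h.tt_of_close hd hP hP'0 hε1 (by rw [← hx]; exact hV5) hyP'
  rw [← hx, ← hηP] at w2
  -- the second point
  have hQ'nb : Q' ∈ nb π (d : K) 0 := by
    rw [h.mem_nb_zero_iff hd0]
    right
    rw [hQ'x, t9, s9]
    exact hy1
  have hQQ : Q' - Q ∈ nb π (d : K) 0 := by
    rw [sub_eq_add_neg]
    exact h.nb_add hd0 0 hQ'nb (neg_mem_nbh hQ)
  refine ⟨P', Q', hA3, w1, hQQ, ?_, ?_⟩
  · rw [← hx, ← hβ, ← hτ, ← hp, ← hε]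
    have e : tt (P' - P) - (3 * x - 1) / 2 * (β * τ) =
        ((2 * ηP * tt (P' - P) + (nx P' - x)) - (nx P' - x + (3 * x - 1) * ηP * β * τ)) /
          (2 * ηP) := by
      have hηP0 : ηP ≠ 0 := hne _ (by rw [hηP1]; exact one_pos)
      have h20 : (2 : K) ≠ 0 := two_ne_zero
      field_simp
      ring
    rw [e, norm_div, norm_mul 2 ηP, h2, hηP1, one_mul, div_one]
    exact (h.norm_sub_le _ _).trans (max_le (w2.trans hεε) hV4)
  · rw [h.tt_sub_norm d hQ'nb hQ, ← hβ, ← hτ, ← hp, ← hε, disp_tt_eq hd0 Q', hQ'x, hQ'y, hQsy]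
    have e0 : k2 / c * (kap x y * ηQ) = c * ηQ := by
      field_simp
      rw [hc2]
    have e1 : τ = y / ηQ := by rw [hτ, disp_tt_eq hd0 Q, ← hy, ← hηQ]
    have e2 : sy (nx R) (sy x y) = y + (rho (nx R) (sy x y) - ρ') * rho x y * (y - 1) := by
      have e3 : sy (nx R) (sy x y) = 1 + rho (nx R) (sy x y) * (rho x y * (y - 1)) := by
        conv_lhs => unfold sy
        unfold sy; ring
      rw [e3]
      linear_combination (y - 1) * hrr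
    have e4 : sy (nx R) (sy x y) / (c * ηQ) - y / ηQ =
        ((rho (nx R) (sy x y) - ρ') * rho x y * (y - 1) - (c - 1) * y) / (c * ηQ) := by
      rw [e2]
      field_simp
      ring
    rw [e0, e1, e4, norm_div, norm_mul c ηQ, hcn, one_mul]
    have h5 : ‖(rho (nx R) (sy x y) - ρ') * rho x y * (y - 1) - (c - 1) * y‖ ≤ ‖Δ‖ * ‖y‖ := by
      refine (h.norm_sub_le _ _).trans (max_le ?_ ?_)
      · rw [norm_mul, norm_mul, s4, mul_one]
        refine mul_le_mul v2 ?_ (norm_nonneg _) (norm_nonneg _)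
        exact (h.norm_sub_le _ _).trans (max_le le_rfl (by rw [norm_one]; exact hy1.le))
      · rw [norm_mul]
        exact mul_le_mul_of_nonneg_right hc1' (norm_nonneg _)
    have h6 : ‖y‖ / ‖ηQ‖ = ‖τ‖ := by rw [e1, norm_div]
    calc ‖(rho (nx R) (sy x y) - ρ') * rho x y * (y - 1) - (c - 1) * y‖ / ‖ηQ‖
        ≤ ‖Δ‖ * ‖y‖ / ‖ηQ‖ := div_le_div_of_nonneg_right h5 (norm_nonneg _)
      _ = ‖Δ‖ * ‖τ‖ := by rw [mul_div_assoc, h6]
      _ ≤ ε * p := mul_le_mul hΔε hτp hτ0.le hε0.le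
      _ = p * ε := mul_comm _ _

end DISP

end GWA
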